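import Pool.Agent.H71.AV.Key

/-!
# Changes of the sign of one coordinate, orbits of the group of all sign changes
-/

namespace Pool.Agent.H70.AV

open Pool.Agent.H73.Avr Pool.Agent.H71.AV

/-- the linear map which negates the coordinate `j` -/
noncomputable def lflip {n : ℕ} (j : Fin (n + 1)) (x : EuclideanSpace ℝ (Fin (n + 1))) :
    EuclideanSpace ℝ (Fin (n + 1)) :=
  WithLp.toLp 2 (fun i => if i = j then -x i else x i)

theorem lflip_apply {n : ℕ} (j : Fin (n + 1)) (x : EuclideanSpace ℝ (Fin (n + 1)))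
    (i : Fin (n + 1)) : lflip j x i = if i = j then -x i else x i := rfl

theorem inner_lflip {n : ℕ} (j : Fin (n + 1)) (x y : EuclideanSpace ℝ (Fin (n + 1))) :
    inner ℝ (lflip j x) (lflip j y) = inner ℝ x y := by
  rw [PiLp.inner_apply, PiLp.inner_apply]
  refine Finset.sum_congr rfl fun i _ => ?_
  rw [lflip_apply, lflip_apply]
  split_ifs <;> simp

theorem norm_lflip {n : ℕ} (j : Fin (n + 1)) (x : EuclideanSpace ℝ (Fin (n + 1))) :
    ‖lflip j x‖ = ‖x‖ := by
  have h1 := inner_lflip j x x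
  rw [real_inner_self_eq_norm_sq, real_inner_self_eq_norm_sq] at h1
  exact (sq_eq_sq₀ (norm_nonneg _) (norm_nonneg _)).1 h1

theorem lflip_lflip {n : ℕ} (j : Fin (n + 1)) (x : EuclideanSpace ℝ (Fin (n + 1))) :
    lflip j (lflip j x) = x := by
  ext i
  rw [lflip_apply, lflip_apply]
  split_ifs <;> simp

/-- the map of the sphere which negates the coordinate `j` -/
noncomputable def flip {n : ℕ} (j : Fin (n + 1)) (x : Sph n) : Sph n :=
  ⟨lflip j x.1, by rw [mem_sphere_zero_iff_norm, norm_lflip, mem_sphere_zero_iff_norm.1 x.2]⟩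

theorem flip_val {n : ℕ} (j : Fin (n + 1)) (x : Sph n) : (flip j x).1 = lflip j x.1 := rfl

theorem flip_apply {n : ℕ} (j : Fin (n + 1)) (x : Sph n) (i : Fin (n + 1)) :
    (flip j x).1 i = if i = j then -x.1 i else x.1 i := rfl

theorem flip_flip {n : ℕ} (j : Fin (n + 1)) (x : Sph n) : flip j (flip j x) = x :=
  Subtype.ext (lflip_lflip _ _)

theorem flip_injective {n : ℕ} (j : Fin (n + 1)) : Function.Injective (flip j : Sph n → Sph n) :=
  fun x y h => by rw [← flip_flip j x, h, flip_flip]

theorem flip_comm {n : ℕ} (i j : Fin (n + 1)) (x : Sph n) :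
    flip i (flip j x) = flip j (flip i x) := by
  apply Subtype.ext
  ext k
  rw [flip_apply, flip_apply, flip_apply, flip_apply]
  split_ifs <;> rfl

theorem geo_flip {n : ℕ} (j : Fin (n + 1)) (x y : Sph n) :
    geo n (flip j x) (flip j y) = geo n x y := by
  unfold geo InnerProductGeometry.angle
  rw [flip_val, flip_val, inner_lflip, norm_lflip, norm_lflip]

theorem flip_ne {n : ℕ} {j : Fin (n + 1)} {x : Sph n} (h : x.1 j ≠ 0) : flip j x ≠ x := by
  intro h1
  have h2 := flip_apply j x j
  rw [h1, if_pos rfl] at h2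
  exact h (by linarith)

theorem inner_eq_sum {n : ℕ} (x y : Sph n) : inner ℝ x.1 y.1 = ∑ i, x.1 i * y.1 i := by
  rw [PiLp.inner_apply]
  refine Finset.sum_congr rfl fun i _ => ?_
  simp [mul_comm]

theorem sum_sq_eq_one {n : ℕ} (x : Sph n) : ∑ i, x.1 i ^ 2 = 1 := by
  have h := (inner_eq_sum x x).symm.trans (inner_self_one x)
  refine Eq.trans ?_ h
  exact Finset.sum_congr rfl fun i _ => sq _

theorem inner_flip {n : ℕ} (j : Fin (n + 1)) (x : Sph n) :
    inner ℝ x.1 (flip j x).1 = 1 - 2 * x.1 j ^ 2 := by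
  have h0 := sum_sq_eq_one x
  rw [← Finset.sum_erase_add _ _ (Finset.mem_univ j)] at h0
  rw [inner_eq_sum, ← Finset.sum_erase_add _ _ (Finset.mem_univ j), flip_apply, if_pos rfl]
  have h : ∑ i ∈ Finset.univ.erase j, x.1 i * (flip j x).1 i =
      ∑ i ∈ Finset.univ.erase j, x.1 i ^ 2 := by
    refine Finset.sum_congr rfl fun i hi => ?_
    rw [flip_apply, if_neg (Finset.ne_of_mem_erase hi), sq]
  rw [h]
  linarith

/-- two points of the support have inner product smaller than the cosine of any number below `r` -/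
theorem inner_lt_cos {n : ℕ} {r s : ℝ} (hs0 : 0 ≤ s) (hr : s < r) (μ : AVR (geo n) r)
    {x y : Sph n} (hx : x ∈ μ.w.support) (hy : y ∈ μ.w.support) (hxy : x ≠ y) :
    inner ℝ x.1 y.1 < Real.cos s := by
  have h1 : s < InnerProductGeometry.angle x.1 y.1 := lt_of_lt_of_le hr (μ.spread x hx y hy hxy)
  have h2 := Real.cos_lt_cos_of_nonneg_of_le_pi hs0 (InnerProductGeometry.angle_le_pi x.1 y.1) h1
  have h3 := InnerProductGeometry.cos_angle_mul_norm_mul_norm x.1 y.1
  rw [mem_sphere_zero_iff_norm.1 x.2, mem_sphere_zero_iff_norm.1 y.2, one_mul, mul_one] at h3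
  linarith

/-- the sign class of a support point: a support point with all products of coordinates
nonnegative -/
theorem exists_aligned {n : ℕ} {r : ℝ} (μ : AVR (geo n) r)
    (hinv : ∀ j x, μ.w (flip j x) = μ.w x) (x : Sph n) {y : Sph n} (hy : y ∈ μ.w.support)
    (T : Finset (Fin (n + 1))) :
    ∃ z ∈ μ.w.support, (∀ i, z.1 i ^ 2 = y.1 i ^ 2) ∧ ∀ i ∈ T, 0 ≤ x.1 i * z.1 i := by
  induction T using Finset.induction_on with
  | empty => exact ⟨y, hy, fun _ => rfl, fun i hi => absurd hi (Finset.notMem_empty i)⟩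
  | insert j T hj ih =>
    obtain ⟨z, hz, h1, h2⟩ := ih
    rcases le_or_gt 0 (x.1 j * z.1 j) with h3 | h3
    · refine ⟨z, hz, h1, fun i hi => ?_⟩
      rcases Finset.mem_insert.1 hi with rfl | hi
      · exact h3
      · exact h2 i hi
    · refine ⟨flip j z, ?_, fun i => ?_, fun i hi => ?_⟩
      · rw [Finsupp.mem_support_iff] at hz ⊢
        rw [hinv]
        exact hz
      · rw [flip_apply, ← h1 i]
        split_ifs
        · ring
        · rfl
      · rw [flip_apply]
        rcases Finset.mem_insert.1 hi with rfl | hi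
        · rw [if_pos rfl]
          linarith
        · rw [if_neg (fun h : i = j => hj (by rw [← h]; exact hi))]
          exact h2 i hi

end Pool.Agent.H70.AV
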