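import Pool.Agent.H89.AVB.Rho
import Pool.Agent.H70.AV.Flip

/-!
# Measures on the two-sphere invariant under the rotations by `π` about the axes
-/

namespace Pool.Agent.H70.AV4

open Pool.Agent.H73.Avr Pool.Agent.H71.AV Pool.Agent.H89.AVB

theorem inner_le {r : ℝ} (hr : 0 ≤ r) (μ : AVR (geo 2) r)
    {x y : Sph 2} (hx : x ∈ μ.w.support) (hy : y ∈ μ.w.support) (hxy : x ≠ y) :
    x.1 0 * y.1 0 + x.1 1 * y.1 1 + x.1 2 * y.1 2 ≤ Real.cos r := by
  have h1 : r ≤ InnerProductGeometry.angle x.1 y.1 := μ.spread x hx y hy hxy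
  have h2 := Real.cos_le_cos_of_nonneg_of_le_pi hr (InnerProductGeometry.angle_le_pi x.1 y.1) h1
  have h3 := InnerProductGeometry.cos_angle_mul_norm_mul_norm x.1 y.1
  rw [mem_sphere_zero_iff_norm.1 x.2, mem_sphere_zero_iff_norm.1 y.2, one_mul, mul_one,
    Pool.Agent.H70.AV.inner_eq_sum, Fin.sum_univ_three] at h3
  linarith

/-- `y` is one of the two points of the axis `k` -/
def Ax (k : Fin 3) (y : Sph 2) : Prop := ∀ i, i ≠ k → y.1 i = 0

theorem rho_mem {r : ℝ} (μ : AVR (geo 2) r) (hinv : ∀ (k : Fin 3) (x : Sph 2),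
    μ.w (rho k x) = μ.w x) (k : Fin 3) {x : Sph 2} (hx : x ∈ μ.w.support) :
    rho k x ∈ μ.w.support := by
  rw [Finsupp.mem_support_iff] at hx ⊢
  rw [hinv]
  exact hx

theorem rho_ne {k : Fin 3} {x : Sph 2} (h : ¬ Ax k x) : x ≠ rho k x := by
  intro h1
  apply h
  intro i hi
  have h2 := rho_apply k x i
  rw [← h1, if_neg hi] at h2
  linarith

/-- a point off the axis `k` -/
theorem sq_le {r : ℝ} (hr0 : 0 ≤ r) (hr : Real.cos r ≤ 1 / 3) (μ : AVR (geo 2) r)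
    (hinv : ∀ (k : Fin 3) (x : Sph 2), μ.w (rho k x) = μ.w x) (k : Fin 3) {x : Sph 2}
    (hx : x ∈ μ.w.support) (h : ¬ Ax k x) : x.1 k ^ 2 ≤ 2 / 3 := by
  have h1 := inner_le hr0 μ hx (rho_mem μ hinv k hx) (rho_ne h)
  have h2 := sum_sq3 x
  rw [rho_apply, rho_apply, rho_apply] at h1
  fin_cases k
  · rw [if_pos (by decide), if_neg (by decide), if_neg (by decide)] at h1
    show x.1 0 ^ 2 ≤ 2 / 3
    nlinarith
  · rw [if_neg (by decide), if_pos (by decide), if_neg (by decide)] at h1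
    show x.1 1 ^ 2 ≤ 2 / 3
    nlinarith
  · rw [if_neg (by decide), if_neg (by decide), if_pos (by decide)] at h1
    show x.1 2 ^ 2 ≤ 2 / 3
    nlinarith

/-- a point off the axis `k` when the axis `k` carries mass -/
theorem sq_le' {r : ℝ} (hr0 : 0 ≤ r) (hr : Real.cos r ≤ 1 / 3) (μ : AVR (geo 2) r)
    (hinv : ∀ (k : Fin 3) (x : Sph 2), μ.w (rho k x) = μ.w x) (k : Fin 3) {x p : Sph 2}
    (hx : x ∈ μ.w.support) (h : ¬ Ax k x) (hp : p ∈ μ.w.support) (hpk : Ax k p) :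
    x.1 k ^ 2 ≤ 1 / 9 := by
  -- the antipode of `p`
  obtain ⟨j, hj⟩ : ∃ j : Fin 3, j ≠ k := ⟨k + 1, by fin_cases k <;> decide⟩
  have hne1 : p ≠ x := fun h1 => h (h1 ▸ hpk)
  have hax : Ax k (rho j p) := by
    intro i hi
    rw [rho_apply, hpk i hi]
    split_ifs <;> simp
  have hne2 : rho j p ≠ x := fun h1 => h (h1 ▸ hax)
  have h1 := inner_le hr0 μ hp hx hne1
  have h2 := inner_le hr0 μ (rho_mem μ hinv j hp) hx hne2
  have h3 := sum_sq3 p
  have h4 : (rho j p).1 k = -p.1 k := by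
    rw [rho_apply, if_neg (Ne.symm hj)]
  have key : ∀ a b c : ℝ, a ^ 2 = 1 → a * b ≤ c → -a * b ≤ c → c ≤ 1 / 3 → b ^ 2 ≤ 1 / 9 := by
    intro a b c h5 h6 h7 h8
    have h9 : (a * b) ^ 2 = b ^ 2 := by rw [mul_pow, h5, one_mul]
    rw [← h9]
    have h10 : a * b ≤ 1 / 3 := by linarith
    have h11 : -(1 / 3) ≤ a * b := by linarith
    nlinarith
  fin_cases k
  · have e1 : p.1 1 = 0 := hpk 1 (by decide)
    have e2 : p.1 2 = 0 := hpk 2 (by decide)
    have e3 : (rho j p).1 1 = 0 := hax 1 (by decide)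
    have e4 : (rho j p).1 2 = 0 := hax 2 (by decide)
    have h4' : (rho j p).1 0 = -p.1 0 := h4
    rw [e1, e2] at h1 h3
    rw [e3, e4, h4'] at h2
    exact key (p.1 0) (x.1 0) (Real.cos r) (by linarith) (by linarith) (by linarith) hr
  · have e1 : p.1 0 = 0 := hpk 0 (by decide)
    have e2 : p.1 2 = 0 := hpk 2 (by decide)
    have e3 : (rho j p).1 0 = 0 := hax 0 (by decide)
    have e4 : (rho j p).1 2 = 0 := hax 2 (by decide)
    have h4' : (rho j p).1 1 = -p.1 1 := h4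
    rw [e1, e2] at h1 h3
    rw [e3, e4, h4'] at h2
    exact key (p.1 1) (x.1 1) (Real.cos r) (by linarith) (by linarith) (by linarith) hr
  · have e1 : p.1 0 = 0 := hpk 0 (by decide)
    have e2 : p.1 1 = 0 := hpk 1 (by decide)
    have e3 : (rho j p).1 0 = 0 := hax 0 (by decide)
    have e4 : (rho j p).1 1 = 0 := hax 1 (by decide)
    have h4' : (rho j p).1 2 = -p.1 2 := h4
    rw [e1, e2] at h1 h3
    rw [e3, e4, h4'] at h2
    exact key (p.1 2) (x.1 2) (Real.cos r) (by linarith) (by linarith) (by linarith) hr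

theorem q4_ge {a b c : ℝ} (ha : 0 ≤ a) (hb : 0 ≤ b) (hc : 0 ≤ c) (hs : a + b + c = 1)
    (ha' : a ≤ 2 / 3) (hb' : b ≤ 2 / 3) (hc' : c ≤ 2 / 3) : 2 / 9 ≤ a * b + b * c + c * a := by
  have h1 : 0 ≤ (2 / 3 - a) * (2 / 3 - b) * (2 / 3 - c) :=
    mul_nonneg (mul_nonneg (by linarith) (by linarith)) (by linarith)
  have h2 : 0 ≤ a * b * c := mul_nonneg (mul_nonneg ha hb) hc
  have h3 : (2 / 3 - a) * (2 / 3 - b) * (2 / 3 - c) =
      8 / 27 - 4 / 9 * (a + b + c) + 2 / 3 * (a * b + b * c + c * a) - a * b * c := by ring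
  rw [h3, hs] at h1
  linarith

theorem q4_gen {r : ℝ} (hr0 : 0 ≤ r) (hr : Real.cos r ≤ 1 / 3) (μ : AVR (geo 2) r)
    (hinv : ∀ (k : Fin 3) (x : Sph 2), μ.w (rho k x) = μ.w x) {x : Sph 2}
    (hx : x ∈ μ.w.support) (h : ∀ k, ¬ Ax k x) : 2 / 9 ≤ q4 x ∧ x.1 2 ^ 2 ≤ 2 / 3 :=
  ⟨q4_ge (sq_nonneg _) (sq_nonneg _) (sq_nonneg _) (sum_sq3 x)
    (sq_le hr0 hr μ hinv 0 hx (h 0)) (sq_le hr0 hr μ hinv 1 hx (h 1))
    (sq_le hr0 hr μ hinv 2 hx (h 2)), sq_le hr0 hr μ hinv 2 hx (h 2)⟩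

theorem q4_nonneg (x : Sph 2) : 0 ≤ q4 x := by
  unfold q4
  positivity

/-- For `cos r ≤ 1 / 3` an invariant measure does not satisfy both `∫ q4 = 1 / 10` and
`∫ s4 = 0`. -/
theorem key4 {r : ℝ} (hr0 : 0 ≤ r) (hr : Real.cos r ≤ 1 / 3) (μ : AVR (geo 2) r)
    (hinv : ∀ (k : Fin 3) (x : Sph 2), μ.w (rho k x) = μ.w x) (hq : ri q4 μ.w = 1 / 10) :
    ri s4 μ.w ≠ 0 := by
  intro hs
  -- a generic point of the support
  have hgen : ∃ x ∈ μ.w.support, ∀ k, ¬ Ax k x := by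
    by_contra hno
    have h1 : ∀ y ∈ μ.w.support, q4 y ≤ (0 : ℝ) * q4 y + 0 := by
      intro y hy
      have h2 : ∃ k, Ax k y := by
        by_contra h3
        exact hno ⟨y, hy, fun k hk => h3 ⟨k, hk⟩⟩
      obtain ⟨k, hk⟩ := h2
      rw [zero_mul, zero_add]
      apply le_of_eq
      unfold q4
      fin_cases k
      · have e1 : y.1 1 = 0 := hk 1 (by decide)
        have e2 : y.1 2 = 0 := hk 2 (by decide)
        rw [e1, e2]; ring
      · have e1 : y.1 0 = 0 := hk 0 (by decide)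
        have e2 : y.1 2 = 0 := hk 2 (by decide)
        rw [e1, e2]; ring
      · have e1 : y.1 0 = 0 := hk 0 (by decide)
        have e2 : y.1 1 = 0 := hk 1 (by decide)
        rw [e1, e2]; ring
    have h4 := ri_le μ h1
    rw [ri_affine, hq] at h4
    norm_num at h4
  obtain ⟨x, hx, hxg⟩ := hgen
  by_cases hz : ∃ p ∈ μ.w.support, Ax 2 p
  · obtain ⟨p, hp, hp2⟩ := hz
    have h1 : ∀ y ∈ μ.w.support, s4 y ≤ 27 / 2 * q4 y + -2 := by
      intro y hy
      by_cases hyz : Ax 2 y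
      · have e1 : y.1 0 = 0 := hyz 0 (by decide)
        have e2 : y.1 1 = 0 := hyz 1 (by decide)
        have e3 := sum_sq3 y
        rw [e1, e2] at e3
        have e4 := q4_nonneg y
        unfold s4
        linarith
      · have hx2 := sq_le' hr0 hr μ hinv 2 hx (hxg 2) hp hp2
        have hyg : ∀ k, ¬ Ax k y := by
          intro k hk
          have e3 := sum_sq3 x
          fin_cases k
          · have h5 : x.1 0 ^ 2 ≤ 1 / 9 := sq_le' hr0 hr μ hinv 0 hx (hxg 0) hy hk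
            have h6 : x.1 1 ^ 2 ≤ 2 / 3 := sq_le hr0 hr μ hinv 1 hx (hxg 1)
            linarith
          · have h5 : x.1 1 ^ 2 ≤ 1 / 9 := sq_le' hr0 hr μ hinv 1 hx (hxg 1) hy hk
            have h6 : x.1 0 ^ 2 ≤ 2 / 3 := sq_le hr0 hr μ hinv 0 hx (hxg 0)
            linarith
          · exact hyz hk
        have h7 := (q4_gen hr0 hr μ hinv hy hyg).1
        have h8 : 0 ≤ y.1 2 ^ 2 := sq_nonneg _
        unfold s4
        linarith
    have h4 := ri_le μ h1
    rw [ri_affine, hq, hs] at h4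
    norm_num at h4
  · have h1 : ∀ y ∈ μ.w.support, -9 * q4 y + 1 ≤ s4 y := by
      intro y hy
      by_cases hyg : ∀ k, ¬ Ax k y
      · have h7 := q4_gen hr0 hr μ hinv hy hyg
        unfold s4
        linarith [h7.1, h7.2]
      · have h2 : ∃ k, Ax k y := by
          by_contra h3
          exact hyg fun k hk => h3 ⟨k, hk⟩
        obtain ⟨k, hk⟩ := h2
        have h3 : y.1 2 = 0 := by
          apply hk
          intro h4
          exact hz ⟨y, hy, h4 ▸ hk⟩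
        have e4 := q4_nonneg y
        unfold s4
        rw [h3]
        linarith
    have h4 := ri_le μ h1
    rw [ri_affine, hq, hs] at h4
    norm_num at h4

end Pool.Agent.H70.AV4
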