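import Pool.Agent.H70.AV.Key8

/-!
# Sign vectors acting on the sphere
-/

namespace Pool.Agent.H70.AV

open Pool.Agent.H73.Avr Pool.Agent.H71.AV

/-- the sign `e i` as a real number -/
def sr {n : ℕ} (e : Fin (n + 1) → ℤˣ) (i : Fin (n + 1)) : ℝ := ((e i : ℤ) : ℝ)

theorem sr_cases {n : ℕ} (e : Fin (n + 1) → ℤˣ) (i : Fin (n + 1)) : sr e i = 1 ∨ sr e i = -1 := by
  unfold sr
  rcases Int.units_eq_one_or (e i) with h | h
  · left; rw [h]; norm_num
  · right; rw [h]; norm_num

theorem sr_sq {n : ℕ} (e : Fin (n + 1) → ℤˣ) (i : Fin (n + 1)) : sr e i * sr e i = 1 := by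
  rcases sr_cases e i with h | h <;> rw [h] <;> norm_num

theorem sr_mul {n : ℕ} (e f : Fin (n + 1) → ℤˣ) (i : Fin (n + 1)) :
    sr (e * f) i = sr e i * sr f i := by
  unfold sr
  rw [Pi.mul_apply]
  push_cast
  ring

theorem sr_one {n : ℕ} (i : Fin (n + 1)) : sr (1 : Fin (n + 1) → ℤˣ) i = 1 := by
  unfold sr
  simp

theorem sr_neg {n : ℕ} (e : Fin (n + 1) → ℤˣ) (i : Fin (n + 1)) : sr (-e) i = -sr e i := by
  unfold sr
  rw [Pi.neg_apply]
  push_cast
  ring

theorem sr_injective {n : ℕ} {e f : Fin (n + 1) → ℤˣ} (h : ∀ i, sr e i = sr f i) : e = f := by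
  funext i
  have h1 := h i
  unfold sr at h1
  exact Units.ext (by exact_mod_cast h1)

/-- the linear map which multiplies the coordinates by signs -/
noncomputable def lact {n : ℕ} (e : Fin (n + 1) → ℤˣ) (x : EuclideanSpace ℝ (Fin (n + 1))) :
    EuclideanSpace ℝ (Fin (n + 1)) :=
  WithLp.toLp 2 (fun i => sr e i * x i)

theorem lact_apply {n : ℕ} (e : Fin (n + 1) → ℤˣ) (x : EuclideanSpace ℝ (Fin (n + 1)))
    (i : Fin (n + 1)) : lact e x i = sr e i * x i := rfl

theorem inner_lact {n : ℕ} (e : Fin (n + 1) → ℤˣ) (x y : EuclideanSpace ℝ (Fin (n + 1))) :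
    inner ℝ (lact e x) (lact e y) = inner ℝ x y := by
  rw [PiLp.inner_apply, PiLp.inner_apply]
  refine Finset.sum_congr rfl fun i _ => ?_
  rw [lact_apply, lact_apply]
  rcases sr_cases e i with h | h <;> rw [h] <;> simp

theorem norm_lact {n : ℕ} (e : Fin (n + 1) → ℤˣ) (x : EuclideanSpace ℝ (Fin (n + 1))) :
    ‖lact e x‖ = ‖x‖ := by
  have h1 := inner_lact e x x
  rw [real_inner_self_eq_norm_sq, real_inner_self_eq_norm_sq] at h1
  exact (sq_eq_sq₀ (norm_nonneg _) (norm_nonneg _)).1 h1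

/-- the action of a sign vector on the sphere -/
noncomputable def act {n : ℕ} (e : Fin (n + 1) → ℤˣ) (x : Sph n) : Sph n :=
  ⟨lact e x.1, by rw [mem_sphere_zero_iff_norm, norm_lact, mem_sphere_zero_iff_norm.1 x.2]⟩

theorem act_val {n : ℕ} (e : Fin (n + 1) → ℤˣ) (x : Sph n) : (act e x).1 = lact e x.1 := rfl

theorem act_apply {n : ℕ} (e : Fin (n + 1) → ℤˣ) (x : Sph n) (i : Fin (n + 1)) :
    (act e x).1 i = sr e i * x.1 i := rfl

theorem act_mul {n : ℕ} (e f : Fin (n + 1) → ℤˣ) (x : Sph n) :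
    act (e * f) x = act e (act f x) := by
  apply Subtype.ext
  ext i
  rw [act_apply, act_apply, act_apply, sr_mul]
  ring

theorem act_act {n : ℕ} (e : Fin (n + 1) → ℤˣ) (x : Sph n) : act e (act e x) = x := by
  apply Subtype.ext
  ext i
  rw [act_apply, act_apply, ← mul_assoc, sr_sq, one_mul]

theorem act_one {n : ℕ} (x : Sph n) : act 1 x = x := by
  apply Subtype.ext
  ext i
  rw [act_apply, sr_one, one_mul]

theorem act_injective {n : ℕ} (e : Fin (n + 1) → ℤˣ) :
    Function.Injective (act e : Sph n → Sph n) :=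
  fun x y h => by rw [← act_act e x, h, act_act]

theorem act_comm {n : ℕ} (e f : Fin (n + 1) → ℤˣ) (x : Sph n) :
    act e (act f x) = act f (act e x) := by
  rw [← act_mul, ← act_mul, mul_comm]

theorem geo_act {n : ℕ} (e : Fin (n + 1) → ℤˣ) (x y : Sph n) :
    geo n (act e x) (act e y) = geo n x y := by
  unfold geo InnerProductGeometry.angle
  rw [act_val, act_val, inner_lact, norm_lact, norm_lact]

theorem inner_act {n : ℕ} (e : Fin (n + 1) → ℤˣ) (x y : Sph n) :
    inner ℝ (act e x).1 y.1 = ∑ i, sr e i * (x.1 i * y.1 i) := by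
  rw [inner_eq_sum]
  refine Finset.sum_congr rfl fun i _ => ?_
  rw [act_apply]
  ring

/-- two points of the support have inner product at most the cosine of `r` -/
theorem inner_le_cos {n : ℕ} {r : ℝ} (hr : 0 ≤ r) (μ : AVR (geo n) r)
    {x y : Sph n} (hx : x ∈ μ.w.support) (hy : y ∈ μ.w.support) (hxy : x ≠ y) :
    inner ℝ x.1 y.1 ≤ Real.cos r := by
  have h1 : r ≤ InnerProductGeometry.angle x.1 y.1 := μ.spread x hx y hy hxy
  have h2 := Real.cos_le_cos_of_nonneg_of_le_pi hr (InnerProductGeometry.angle_le_pi x.1 y.1) h1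
  have h3 := InnerProductGeometry.cos_angle_mul_norm_mul_norm x.1 y.1
  rw [mem_sphere_zero_iff_norm.1 x.2, mem_sphere_zero_iff_norm.1 y.2, one_mul, mul_one] at h3
  linarith

theorem act_mem {n : ℕ} {r : ℝ} (μ : AVR (geo n) r) {e : Fin (n + 1) → ℤˣ}
    (hinv : ∀ x, μ.w (act e x) = μ.w x) {x : Sph n} (hx : x ∈ μ.w.support) :
    act e x ∈ μ.w.support := by
  rw [Finsupp.mem_support_iff] at hx ⊢
  rw [hinv]
  exact hx

/-- a sign vector different from `1` moves every point without zero coordinate -/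
theorem act_ne {n : ℕ} {e : Fin (n + 1) → ℤˣ} (he : e ≠ 1) {x : Sph n} (hx : ∀ i, x.1 i ≠ 0) :
    act e x ≠ x := by
  intro h
  apply he
  apply sr_injective
  intro i
  have h1 := act_apply e x i
  rw [h] at h1
  rw [sr_one]
  have h2 : (sr e i - 1) * x.1 i = 0 := by linarith
  rcases mul_eq_zero.1 h2 with h3 | h3
  · linarith
  · exact absurd h3 (hx i)

end Pool.Agent.H70.AV
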