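import Pool.Agent.H70.AV.Key8

/-!
# Flip invariant measures on the two-sphere at scales above `π / 4`
-/

namespace Pool.Agent.H70.AV45

open Pool.Agent.H73.Avr Pool.Agent.H71.AV Pool.Agent.H70.AV

/-- on a support point of an invariant measure: zero if the coordinate `i` vanishes, else one -/
noncomputable def mm (r : ℝ) (i : Fin 3) (x : Sph 2) : ℝ :=
  min 1 (x.1 i ^ 2 / ((1 - Real.cos r) / 2))

/-- first detecting function -/
noncomputable def S45 (r : ℝ) (x : Sph 2) : ℝ :=
  x.1 0 ^ 2 * (1 - mm r 2 x * (1 - mm r 1 x)) - 1 / 3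

/-- second detecting function -/
noncomputable def T45 (x : Sph 2) : ℝ := x.1 1 ^ 2 - x.1 2 ^ 2

/-- one on the support points with exactly one vanishing coordinate, zero on the others -/
noncomputable def B45 (r : ℝ) (x : Sph 2) : ℝ :=
  (mm r 0 x + mm r 1 x + mm r 2 x - 1) * (3 - (mm r 0 x + mm r 1 x + mm r 2 x))

private theorem numX {a b : ℝ} (ha : 3826 / 10000 ≤ a) (ha' : a ≤ 7072 / 10000) (hb : 0 ≤ b)
    (h : a ^ 2 + b ^ 2 = 1) : 118 / 100 - 67 / 100 * a ≤ b := by
  by_contra hcon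
  rw [not_le] at hcon
  have h1 : 0 ≤ (a - 3826 / 10000) * (7072 / 10000 - a) :=
    mul_nonneg (by linarith) (by linarith)
  have h2 : b ^ 2 < (118 / 100 - 67 / 100 * a) ^ 2 := pow_lt_pow_left₀ hcon hb two_ne_zero
  nlinarith

private theorem numY {p q t : ℝ} (hp : 3826 / 10000 ≤ p) (hq : 0 ≤ q)
    (h : p ^ 2 + q ^ 2 + t ^ 2 = 1) (h1 : p ^ 2 ≤ 10786 / 10000 * q ^ 2)
    (h2 : t ^ 2 ≤ 10786 / 10000 * q ^ 2) : 789 / 1000 ≤ q + 39 / 100 * p := by
  by_contra hcon
  rw [not_le] at hcon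
  rcases le_or_gt p (59 / 100) with hp' | hp'
  · have h3 : 0 ≤ (p - 3826 / 10000) * (59 / 100 - p) := mul_nonneg (by linarith) (by linarith)
    have h4 : q < 789 / 1000 - 39 / 100 * p := by linarith
    have h5 : q ^ 2 < (789 / 1000 - 39 / 100 * p) ^ 2 := pow_lt_pow_left₀ h4 hq two_ne_zero
    nlinarith
  · have h3 : q < 5589 / 10000 := by linarith
    have h4 : q ^ 2 < (5589 / 10000) ^ 2 := pow_lt_pow_left₀ h3 hq two_ne_zero
    have h5 : (59 / 100 : ℝ) ^ 2 < p ^ 2 := pow_lt_pow_left₀ hp' (by norm_num) two_ne_zero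
    nlinarith

private theorem numF {a b p q t : ℝ} (ha : 3826 / 10000 ≤ a) (ha' : a ≤ 7072 / 10000)
    (hb : 0 ≤ b) (h : a ^ 2 + b ^ 2 = 1) (hp : 3826 / 10000 ≤ p) (hq : 0 ≤ q)
    (h' : p ^ 2 + q ^ 2 + t ^ 2 = 1) (h1 : p ^ 2 ≤ 10786 / 10000 * q ^ 2)
    (h2 : t ^ 2 ≤ 10786 / 10000 * q ^ 2) : 7072 / 10000 < a * p + b * q := by
  have h3 := numX ha ha' hb h
  have h4 := numY hp hq h' h1 h2
  have h5 : (118 / 100 - 67 / 100 * a) * q ≤ b * q := mul_le_mul_of_nonneg_right h3 hq
  rcases le_or_gt (67 / 100 * q) p with h6 | h6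
  · have h7 : 0 ≤ (a - 3826 / 10000) * (p - 67 / 100 * q) :=
      mul_nonneg (by linarith) (by linarith)
    nlinarith
  · have h7 : 0 ≤ (7072 / 10000 - a) * (67 / 100 * q - p) :=
      mul_nonneg (by linarith) (by linarith)
    nlinarith

private theorem numG1 {a b c : ℝ} (ha : 3826 / 10000 ≤ a) (hb : 3826 / 10000 ≤ b)
    (hc : 3826 / 10000 ≤ c) (h : a ^ 2 + b ^ 2 + c ^ 2 = 1) : 16052 / 10000 ≤ a + b + c := by
  by_contra hcon
  rw [not_le] at hcon
  have h1 : 0 ≤ (a - 3826 / 10000) * (b - 3826 / 10000) := mul_nonneg (by linarith) (by linarith)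
  have h2 : 0 ≤ (a - 3826 / 10000) * (c - 3826 / 10000) := mul_nonneg (by linarith) (by linarith)
  have h3 : 0 ≤ (b - 3826 / 10000) * (c - 3826 / 10000) := mul_nonneg (by linarith) (by linarith)
  have h4 : (a + b + c - 7652 / 10000) ^ 2 < (84 / 100) ^ 2 :=
    pow_lt_pow_left₀ (by linarith) (by linarith) two_ne_zero
  nlinarith

private theorem numG {a b c a' b' c' : ℝ} (ha : 3826 / 10000 ≤ a) (hb : 3826 / 10000 ≤ b)
    (hc : 3826 / 10000 ≤ c) (h : a ^ 2 + b ^ 2 + c ^ 2 = 1) (ha' : 3826 / 10000 ≤ a')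
    (hb' : 3826 / 10000 ≤ b') (hc' : 3826 / 10000 ≤ c') (h' : a' ^ 2 + b' ^ 2 + c' ^ 2 = 1) :
    7072 / 10000 < a * a' + b * b' + c * c' := by
  have h1 := numG1 ha hb hc h
  have h2 := numG1 ha' hb' hc' h'
  have h3 : 0 ≤ (a - 3826 / 10000) * (a' - 3826 / 10000) := mul_nonneg (by linarith) (by linarith)
  have h4 : 0 ≤ (b - 3826 / 10000) * (b' - 3826 / 10000) := mul_nonneg (by linarith) (by linarith)
  have h5 : 0 ≤ (c - 3826 / 10000) * (c' - 3826 / 10000) := mul_nonneg (by linarith) (by linarith)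
  nlinarith

private theorem ex_jk : ∀ i : Fin 3, ∃ j k : Fin 3, i ≠ j ∧ i ≠ k ∧ j ≠ k := by decide

private theorem three : ∀ i j k : Fin 3, i ≠ j → i ≠ k → j ≠ k → ∀ l, l = i ∨ l = j ∨ l = k := by
  decide

private theorem sum_ijk {i j k : Fin 3} (hij : i ≠ j) (hik : i ≠ k) (hjk : j ≠ k)
    (f : Fin 3 → ℝ) : ∑ l, f l = f i + f j + f k := by
  have h : (Finset.univ : Finset (Fin 3)) = {i, j, k} := by
    revert i j k; decide
  rw [h, Finset.sum_insert (by simp [hij, hik]), Finset.sum_insert (by simp [hjk]),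
    Finset.sum_singleton]
  ring

private theorem inner_le {r : ℝ} (hr : 0 ≤ r) (μ : AVR (geo 2) r)
    {x y : Sph 2} (hx : x ∈ μ.w.support) (hy : y ∈ μ.w.support) (hxy : x ≠ y) :
    ∑ l, x.1 l * y.1 l ≤ Real.cos r := by
  have h1 : r ≤ InnerProductGeometry.angle x.1 y.1 := μ.spread x hx y hy hxy
  have h2 := Real.cos_le_cos_of_nonneg_of_le_pi hr (InnerProductGeometry.angle_le_pi x.1 y.1) h1
  have h3 := InnerProductGeometry.cos_angle_mul_norm_mul_norm x.1 y.1
  rw [mem_sphere_zero_iff_norm.1 x.2, mem_sphere_zero_iff_norm.1 y.2, one_mul, mul_one] at h3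
  have h4 := inner_eq_sum x y
  linarith

private theorem flip_mem {r : ℝ} (μ : AVR (geo 2) r) (hinv : ∀ j x, μ.w (flip j x) = μ.w x)
    (j : Fin 3) {x : Sph 2} (hx : x ∈ μ.w.support) : flip j x ∈ μ.w.support := by
  rw [Finsupp.mem_support_iff] at hx ⊢
  rw [hinv]
  exact hx

section
variable {r : ℝ} (hr0 : 0 ≤ r) (hc : 2 * Real.cos r ^ 2 < 1) (μ : AVR (geo 2) r)
  (hinv : ∀ j x, μ.w (flip j x) = μ.w x)
include hr0 hc hinv

private theorem cos_lt : Real.cos r < 7072 / 10000 := by
  by_contra hcon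
  rw [not_lt] at hcon
  have h1 : (7072 / 10000 : ℝ) ^ 2 ≤ Real.cos r ^ 2 := pow_le_pow_left₀ (by norm_num) hcon 2
  norm_num at h1
  linarith

private theorem coord {x : Sph 2} (hx : x ∈ μ.w.support) (i : Fin 3) (h : x.1 i ≠ 0) :
    (1 - Real.cos r) / 2 ≤ x.1 i ^ 2 := by
  have h1 := inner_le hr0 μ hx (flip_mem μ hinv i hx) (Ne.symm (flip_ne h))
  have h2 := inner_flip i x
  have h3 := inner_eq_sum x (flip i x)
  linarith

private theorem coord_abs {x : Sph 2} (hx : x ∈ μ.w.support) (i : Fin 3) (h : x.1 i ≠ 0) :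
    3826 / 10000 ≤ |x.1 i| := by
  have h1 := coord hr0 hc μ hinv hx i h
  have h2 := cos_lt hr0 hc μ hinv
  by_contra hcon
  rw [not_le] at hcon
  have h3 : |x.1 i| ^ 2 < (3826 / 10000) ^ 2 := pow_lt_pow_left₀ hcon (abs_nonneg _) two_ne_zero
  rw [sq_abs] at h3
  norm_num at h3
  linarith

private theorem mm_one {x : Sph 2} (hx : x ∈ μ.w.support) (i : Fin 3) (h : x.1 i ≠ 0) :
    mm r i x = 1 := by
  have h1 := coord hr0 hc μ hinv hx i h
  have h2 := cos_lt hr0 hc μ hinv
  unfold mm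
  rw [min_eq_left]
  rw [le_div_iff₀ (by linarith)]
  linarith

omit hr0 hc hinv in
private theorem mm_zero {x : Sph 2} (i : Fin 3) (h : x.1 i = 0) : mm r i x = 0 := by
  unfold mm
  rw [h]
  norm_num

/-- all squares agree on the support points without vanishing coordinate -/
private theorem full_eq {x y : Sph 2} (hx : x ∈ μ.w.support) (hy : y ∈ μ.w.support)
    (hx0 : ∀ i, x.1 i ≠ 0) (hy0 : ∀ i, y.1 i ≠ 0) (i : Fin 3) : y.1 i ^ 2 = x.1 i ^ 2 := by
  obtain ⟨z, hz, h1, h2⟩ := exists_aligned μ hinv x hy Finset.univ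
  by_cases hxz : x = z
  · rw [hxz, h1]
  · exfalso
    have h3 := inner_le hr0 μ hx hz hxz
    rw [Fin.sum_univ_three] at h3
    have hz0 : ∀ i, z.1 i ≠ 0 := by
      intro i h4
      apply hy0 i
      have h5 := h1 i
      rw [h4] at h5
      exact pow_eq_zero_iff two_ne_zero |>.1 (by linarith)
    have h4 : ∀ i, x.1 i * z.1 i = |x.1 i| * |z.1 i| := by
      intro i
      rw [← abs_mul, abs_of_nonneg (h2 i (Finset.mem_univ i))]
    have e1 := sum_sq_eq_one x
    have e2 := sum_sq_eq_one z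
    rw [Fin.sum_univ_three] at e1 e2
    rw [← sq_abs (x.1 0), ← sq_abs (x.1 1), ← sq_abs (x.1 2)] at e1
    rw [← sq_abs (z.1 0), ← sq_abs (z.1 1), ← sq_abs (z.1 2)] at e2
    have h5 := numG (coord_abs hr0 hc μ hinv hx 0 (hx0 0)) (coord_abs hr0 hc μ hinv hx 1 (hx0 1))
      (coord_abs hr0 hc μ hinv hx 2 (hx0 2)) e1 (coord_abs hr0 hc μ hinv hz 0 (hz0 0))
      (coord_abs hr0 hc μ hinv hz 1 (hz0 1)) (coord_abs hr0 hc μ hinv hz 2 (hz0 2)) e2
    rw [h4, h4, h4] at h3
    have h6 := cos_lt hr0 hc μ hinv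
    linarith

end

private theorem ri_lin {r : ℝ} (μ : AVR (geo 2) r) (f g : Sph 2 → ℝ) (a b c : ℝ) :
    ri (fun x => a * f x + b * g x + c) μ.w = a * ri f μ.w + b * ri g μ.w + c := by
  have h1 : ∑ x ∈ μ.w.support, μ.w x = 1 := μ.total
  show ∑ x ∈ μ.w.support, μ.w x * (a * f x + b * g x + c) =
    a * ∑ x ∈ μ.w.support, μ.w x * f x + b * ∑ x ∈ μ.w.support, μ.w x * g x + c
  calc ∑ x ∈ μ.w.support, μ.w x * (a * f x + b * g x + c)
      = a * ∑ x ∈ μ.w.support, μ.w x * f x + b * ∑ x ∈ μ.w.support, μ.w x * g x +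
          c * ∑ x ∈ μ.w.support, μ.w x := by
        rw [Finset.mul_sum, Finset.mul_sum, Finset.mul_sum, ← Finset.sum_add_distrib,
          ← Finset.sum_add_distrib]
        refine Finset.sum_congr rfl fun x _ => ?_
        ring
    _ = _ := by rw [h1, mul_one]

/-- For `2 cos² r < 1` a flip invariant measure does not satisfy `∫ S45 = 0`, `∫ T45 = 0` and
`∫ B45 = 1 / 100`. -/
theorem key45 {r : ℝ} (hr0 : 0 ≤ r) (hc : 2 * Real.cos r ^ 2 < 1) (μ : AVR (geo 2) r)
    (hinv : ∀ j x, μ.w (flip j x) = μ.w x) (hS : ri (S45 r) μ.w = 0) (hT : ri T45 μ.w = 0) :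
    ri (B45 r) μ.w ≠ 1 / 100 := by
  classical
  intro hB
  have hcos := cos_lt hr0 hc μ hinv
  -- value of `B45` on the support
  have hBv : ∀ x ∈ μ.w.support, 0 ≤ B45 r x ∧ (B45 r x ≠ 0 → B45 r x = 1 ∧
      ∃ i, x.1 i = 0 ∧ ∀ l, l ≠ i → x.1 l ≠ 0) ∧
      (∀ i, x.1 i = 0 → (∀ l, l ≠ i → x.1 l ≠ 0) → B45 r x = 1) := by
    intro x hx
    have m1 := fun i => mm_one hr0 hc μ hinv hx i
    have m0 := fun i => mm_zero (r := r) (x := x) i
    have hs := sum_sq_eq_one x
    rw [Fin.sum_univ_three] at hs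
    by_cases c0 : x.1 0 = 0 <;> by_cases c1 : x.1 1 = 0 <;> by_cases c2 : x.1 2 = 0
    · exfalso
      rw [c0, c1, c2] at hs
      norm_num at hs
    · have hv : B45 r x = 0 := by
        unfold B45; rw [m0 0 c0, m0 1 c1, m1 2 c2]; norm_num
      refine ⟨hv.ge, fun h => absurd hv h, fun i hi hl => ?_⟩
      exfalso
      fin_cases i
      · exact hl 1 (by decide) c1
      · exact hl 0 (by decide) c0
      · exact c2 hi
    · have hv : B45 r x = 0 := by
        unfold B45; rw [m0 0 c0, m1 1 c1, m0 2 c2]; norm_num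
      refine ⟨hv.ge, fun h => absurd hv h, fun i hi hl => ?_⟩
      exfalso
      fin_cases i
      · exact hl 2 (by decide) c2
      · exact c1 hi
      · exact hl 0 (by decide) c0
    · have hv : B45 r x = 1 := by
        unfold B45; rw [m0 0 c0, m1 1 c1, m1 2 c2]; norm_num
      refine ⟨by rw [hv]; norm_num, fun _ => ⟨hv, 0, c0, fun l hl => ?_⟩, fun _ _ _ => hv⟩
      fin_cases l
      · exact absurd rfl hl
      · exact c1
      · exact c2
    · have hv : B45 r x = 0 := by
        unfold B45; rw [m1 0 c0, m0 1 c1, m0 2 c2]; norm_num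
      refine ⟨hv.ge, fun h => absurd hv h, fun i hi hl => ?_⟩
      exfalso
      fin_cases i
      · exact c0 hi
      · exact hl 2 (by decide) c2
      · exact hl 1 (by decide) c1
    · have hv : B45 r x = 1 := by
        unfold B45; rw [m1 0 c0, m0 1 c1, m1 2 c2]; norm_num
      refine ⟨by rw [hv]; norm_num, fun _ => ⟨hv, 1, c1, fun l hl => ?_⟩, fun _ _ _ => hv⟩
      fin_cases l
      · exact c0
      · exact absurd rfl hl
      · exact c2
    · have hv : B45 r x = 1 := by
        unfold B45; rw [m1 0 c0, m1 1 c1, m0 2 c2]; norm_num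
      refine ⟨by rw [hv]; norm_num, fun _ => ⟨hv, 2, c2, fun l hl => ?_⟩, fun _ _ _ => hv⟩
      fin_cases l
      · exact c0
      · exact c1
      · exact absurd rfl hl
    · have hv : B45 r x = 0 := by
        unfold B45; rw [m1 0 c0, m1 1 c1, m1 2 c2]; norm_num
      refine ⟨hv.ge, fun h => absurd hv h, fun i hi hl => ?_⟩
      exfalso
      fin_cases i
      · exact c0 hi
      · exact c1 hi
      · exact c2 hi
  -- bounds for `S45`
  have hSv : ∀ x ∈ μ.w.support, x.1 0 ^ 2 - B45 r x ≤ S45 r x + 1 / 3 ∧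
      S45 r x + 1 / 3 ≤ x.1 0 ^ 2 := by
    intro x hx
    have m1 := fun i => mm_one hr0 hc μ hinv hx i
    have m0 := fun i => mm_zero (r := r) (x := x) i
    have hb := hBv x hx
    have hs := sum_sq_eq_one x
    rw [Fin.sum_univ_three] at hs
    have e : S45 r x + 1 / 3 = x.1 0 ^ 2 * (1 - mm r 2 x * (1 - mm r 1 x)) := by
      unfold S45; ring
    rw [e]
    have hx0 : 0 ≤ x.1 0 ^ 2 := sq_nonneg _
    have hx1 : x.1 0 ^ 2 ≤ 1 := by nlinarith [sq_nonneg (x.1 1), sq_nonneg (x.1 2)]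
    by_cases c1 : x.1 1 = 0
    · by_cases c2 : x.1 2 = 0
      · rw [m0 1 c1, m0 2 c2]
        constructor <;> linarith [hb.1]
      · rw [m0 1 c1, m1 2 c2]
        by_cases c0 : x.1 0 = 0
        · rw [c0]
          constructor
          · linarith [hb.1]
          · norm_num
        · have hv : B45 r x = 1 := by
            refine hb.2.2 1 c1 fun l hl => ?_
            fin_cases l
            · exact c0
            · exact absurd rfl hl
            · exact c2
          rw [hv]
          constructor <;> linarith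
    · by_cases c2 : x.1 2 = 0
      · rw [m1 1 c1, m0 2 c2]
        constructor <;> linarith [hb.1]
      · rw [m1 1 c1, m1 2 c2]
        constructor <;> linarith [hb.1]
  -- the second moments
  set p : Fin 3 → ℝ := fun i => ri (fun x => x.1 i ^ 2) μ.w with hp
  have hpsum : p 0 + p 1 + p 2 = 1 := by
    have h1 : ri (fun x : Sph 2 => 1 * x.1 0 ^ 2 + 1 * ((fun y : Sph 2 => 1 * y.1 1 ^ 2 +
        1 * y.1 2 ^ 2 + 0) x) + 0) μ.w = 1 * p 0 + 1 * (1 * p 1 + 1 * p 2 + 0) + 0 := by
      rw [ri_lin μ (fun x => x.1 0 ^ 2) _ 1 1 0, ri_lin μ (fun x => x.1 1 ^ 2)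
        (fun x => x.1 2 ^ 2) 1 1 0]
    have h2 : ri (fun x : Sph 2 => 1 * x.1 0 ^ 2 + 1 * ((fun y : Sph 2 => 1 * y.1 1 ^ 2 +
        1 * y.1 2 ^ 2 + 0) x) + 0) μ.w = 1 := by
      apply ri_eq_of_const
      intro x _
      have hs := sum_sq_eq_one x
      rw [Fin.sum_univ_three] at hs
      linarith
    linarith
  have hp12 : p 1 = p 2 := by
    have h1 : ri (fun x : Sph 2 => 1 * x.1 1 ^ 2 + (-1) * x.1 2 ^ 2 + 0) μ.w =
        1 * p 1 + (-1) * p 2 + 0 := ri_lin μ _ _ 1 (-1) 0
    have h2 : (fun x : Sph 2 => 1 * x.1 1 ^ 2 + (-1) * x.1 2 ^ 2 + 0) = T45 := by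
      funext x
      unfold T45
      ring
    rw [h2, hT] at h1
    linarith
  have hp0a : p 0 ≤ 1 / 3 + 1 / 100 := by
    have h1 : ri (fun x => 1 * x.1 0 ^ 2 + (-1) * B45 r x + 0) μ.w ≤
        ri (fun x => 1 * S45 r x + 0 * S45 r x + 1 / 3) μ.w :=
      ri_le μ fun x hx => by linarith [(hSv x hx).1]
    rw [ri_lin μ (fun x => x.1 0 ^ 2) (B45 r) 1 (-1) 0, ri_lin μ (S45 r) (S45 r) 1 0 (1 / 3),
      hS, hB] at h1
    have h2 : ri (fun x : Sph 2 => x.1 0 ^ 2) μ.w = p 0 := rfl
    rw [h2] at h1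
    linarith
  have hp0b : 1 / 3 ≤ p 0 := by
    have h1 : ri (fun x => 1 * S45 r x + 0 * S45 r x + 1 / 3) μ.w ≤
        ri (fun x : Sph 2 => x.1 0 ^ 2) μ.w :=
      ri_le μ fun x hx => by linarith [(hSv x hx).2]
    rw [ri_lin μ (S45 r) (S45 r) 1 0 (1 / 3), hS] at h1
    have h2 : ri (fun x : Sph 2 => x.1 0 ^ 2) μ.w = p 0 := rfl
    rw [h2] at h1
    linarith
  have hpu : ∀ i, p i ≤ 1 / 3 + 1 / 100 := by
    intro i
    fin_cases i
    · exact hp0a
    · show p 1 ≤ _; linarith
    · show p 2 ≤ _; linarith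
  have hpl : ∀ i, 1 / 3 - 1 / 200 ≤ p i := by
    intro i
    fin_cases i
    · show _ ≤ p 0; linarith
    · show _ ≤ p 1; linarith
    · show _ ≤ p 2; linarith
  -- a point with exactly one vanishing coordinate
  obtain ⟨x, hx, hxB⟩ : ∃ x ∈ μ.w.support, B45 r x ≠ 0 := by
    by_contra hno
    have h1 : ri (B45 r) μ.w = 0 := by
      apply ri_eq_of_const
      intro x hx
      by_contra h
      exact hno ⟨x, hx, h⟩
    rw [h1] at hB
    norm_num at hB
  obtain ⟨_, i, hi, hil⟩ := (hBv x hx).2.1 hxB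
  obtain ⟨j, k, hij, hik, hjk, hk2⟩ : ∃ j k : Fin 3, i ≠ j ∧ i ≠ k ∧ j ≠ k ∧
      1 / 2 ≤ x.1 k ^ 2 := by
    obtain ⟨j, k, hij, hik, hjk⟩ : ∃ j k : Fin 3, i ≠ j ∧ i ≠ k ∧ j ≠ k :=
      ex_jk i
    have h1 := (sum_ijk hij hik hjk (fun l => x.1 l ^ 2)).symm.trans (sum_sq_eq_one x)
    have h1' : x.1 i ^ 2 + x.1 j ^ 2 + x.1 k ^ 2 = 1 := h1
    rw [hi] at h1'
    rcases le_or_gt (1 / 2) (x.1 k ^ 2) with h2 | h2
    · exact ⟨j, k, hij, hik, hjk, h2⟩
    · exact ⟨k, j, hik, hij, hjk.symm, by linarith⟩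
  have hxs : x.1 j ^ 2 + x.1 k ^ 2 = 1 := by
    have h1 := (sum_ijk hij hik hjk (fun l => x.1 l ^ 2)).symm.trans (sum_sq_eq_one x)
    have h1' : x.1 i ^ 2 + x.1 j ^ 2 + x.1 k ^ 2 = 1 := h1
    rw [hi] at h1'
    linarith
  have hxj : x.1 j ≠ 0 := hil j hij.symm
  have hxk : x.1 k ≠ 0 := hil k hik.symm
  -- the axis `k` carries no mass
  have hax : ∀ z ∈ μ.w.support, ¬ ∀ l, l ≠ k → z.1 l = 0 := by
    intro z hz hzl
    obtain ⟨z', hz', h1, h2⟩ := exists_aligned μ hinv x hz Finset.univ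
    have hzj : z'.1 j = 0 := by
      have h3 := h1 j
      rw [hzl j hjk, zero_pow two_ne_zero] at h3
      exact pow_eq_zero_iff two_ne_zero |>.1 h3
    have hzi : z'.1 i = 0 := by
      have h3 := h1 i
      rw [hzl i hik, zero_pow two_ne_zero] at h3
      exact pow_eq_zero_iff two_ne_zero |>.1 h3
    have hzk : z'.1 k ^ 2 = 1 := by
      have h3 := (sum_ijk hij hik hjk (fun l => z'.1 l ^ 2)).symm.trans (sum_sq_eq_one z')
      have h3' : z'.1 i ^ 2 + z'.1 j ^ 2 + z'.1 k ^ 2 = 1 := h3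
      rw [hzi, hzj] at h3'
      linarith
    have hne : x ≠ z' := fun h => hxj (by rw [h]; exact hzj)
    have h4 := inner_le hr0 μ hx hz' hne
    rw [sum_ijk hij hik hjk, hzi, hzj, mul_zero, mul_zero, zero_add, zero_add] at h4
    have h5 := h2 k (Finset.mem_univ k)
    have h6 : (x.1 k * z'.1 k) ^ 2 ≤ Real.cos r ^ 2 := pow_le_pow_left₀ h5 h4 2
    rw [mul_pow, hzk, mul_one] at h6
    linarith
  -- a point without vanishing coordinate
  obtain ⟨y, hy, hy0⟩ : ∃ y ∈ μ.w.support, ∀ l, y.1 l ≠ 0 := by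
    by_contra hno
    have h1 : ∀ z ∈ μ.w.support, z.1 k ^ 2 ≤ B45 r z := by
      intro z hz
      have hb := hBv z hz
      by_cases hzk : z.1 k = 0
      · rw [hzk, zero_pow two_ne_zero]
        exact hb.1
      · have hz1 : z.1 k ^ 2 ≤ 1 :=
          (Finset.single_le_sum (f := fun i => z.1 i ^ 2) (fun i _ => sq_nonneg _)
            (Finset.mem_univ k)).trans (le_of_eq (sum_sq_eq_one z))
        by_cases hzi : z.1 i = 0
        · by_cases hzj : z.1 j = 0
          · exfalso
            refine hax z hz fun l hl => ?_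
            have h3 := three i j k hij hik hjk l
            have : l = i ∨ l = j := by tauto
            rcases this with rfl | rfl
            · exact hzi
            · exact hzj
          · rw [hb.2.2 i hzi fun l hl => ?_]
            · exact hz1
            · have h3 := three i j k hij hik hjk l
              have : l = j ∨ l = k := by tauto
              rcases this with rfl | rfl
              · exact hzj
              · exact hzk
        · by_cases hzj : z.1 j = 0
          · rw [hb.2.2 j hzj fun l hl => ?_]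
            · exact hz1
            · have h3 := three i j k hij hik hjk l
              have : l = i ∨ l = k := by tauto
              rcases this with rfl | rfl
              · exact hzi
              · exact hzk
          · exfalso
            refine hno ⟨z, hz, fun l => ?_⟩
            have := three i j k hij hik hjk l
            rcases this with rfl | rfl | rfl
            · exact hzi
            · exact hzj
            · exact hzk
    have h2 := ri_le μ h1
    rw [hB] at h2
    have h3 := hpl k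
    have h4 : ri (fun x : Sph 2 => x.1 k ^ 2) μ.w = p k := rfl
    rw [h4] at h2
    linarith
  -- the mass of the full points
  set gI : Sph 2 → ℝ := fun z => if ∀ l, z.1 l ≠ 0 then 1 else 0 with hgI
  set W : ℝ := ri gI μ.w with hW
  have hk1 : p k ≤ y.1 k ^ 2 * W + 1 / 100 := by
    have h1 : ∀ z ∈ μ.w.support, z.1 k ^ 2 ≤ y.1 k ^ 2 * gI z + 1 * B45 r z + 0 := by
      intro z hz
      have hb := hBv z hz
      by_cases hz0 : ∀ l, z.1 l ≠ 0
      · have e1 : gI z = 1 := if_pos hz0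
        rw [e1, full_eq hr0 hc μ hinv hy hz hy0 hz0 k]
        linarith [hb.1]
      · have e1 : gI z = 0 := if_neg hz0
        rw [e1]
        by_cases hzk : z.1 k = 0
        · rw [hzk, zero_pow two_ne_zero]
          linarith [hb.1]
        · have hz1 : z.1 k ^ 2 ≤ 1 :=
            (Finset.single_le_sum (f := fun i => z.1 i ^ 2) (fun i _ => sq_nonneg _)
              (Finset.mem_univ k)).trans (le_of_eq (sum_sq_eq_one z))
          have hB1 : B45 r z = 1 := by
            by_cases hzi : z.1 i = 0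
            · by_cases hzj : z.1 j = 0
              · exfalso
                refine hax z hz fun l hl => ?_
                have h3 := three i j k hij hik hjk l
                have : l = i ∨ l = j := by tauto
                rcases this with rfl | rfl
                · exact hzi
                · exact hzj
              · refine hb.2.2 i hzi fun l hl => ?_
                have h3 := three i j k hij hik hjk l
                have : l = j ∨ l = k := by tauto
                rcases this with rfl | rfl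
                · exact hzj
                · exact hzk
            · by_cases hzj : z.1 j = 0
              · refine hb.2.2 j hzj fun l hl => ?_
                have h3 := three i j k hij hik hjk l
                have : l = i ∨ l = k := by tauto
                rcases this with rfl | rfl
                · exact hzi
                · exact hzk
              · exfalso
                refine hz0 fun l => ?_
                have := three i j k hij hik hjk l
                rcases this with rfl | rfl | rfl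
                · exact hzi
                · exact hzj
                · exact hzk
          rw [hB1]
          linarith
    have h2 := ri_le μ h1
    rw [ri_lin μ gI (B45 r) (y.1 k ^ 2) 1 0, hB] at h2
    have h4 : ri (fun x : Sph 2 => x.1 k ^ 2) μ.w = p k := rfl
    rw [h4] at h2
    linarith
  have hl1 : ∀ l, y.1 l ^ 2 * W ≤ p l := by
    intro l
    have h1 : ∀ z ∈ μ.w.support, y.1 l ^ 2 * gI z + 0 * gI z + 0 ≤ z.1 l ^ 2 := by
      intro z hz
      by_cases hz0 : ∀ l, z.1 l ≠ 0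
      · have e1 : gI z = 1 := if_pos hz0
        rw [e1, full_eq hr0 hc μ hinv hy hz hy0 hz0 l]
        linarith
      · have e1 : gI z = 0 := if_neg hz0
        rw [e1]
        have := sq_nonneg (z.1 l)
        linarith
    have h2 := ri_le μ h1
    rw [ri_lin μ gI gI (y.1 l ^ 2) 0 0] at h2
    have h4 : ri (fun x : Sph 2 => x.1 l ^ 2) μ.w = p l := rfl
    rw [h4] at h2
    linarith
  have hWk : 3183 / 10000 < y.1 k ^ 2 * W := by
    have := hpl k
    linarith
  have hyk : 0 < y.1 k ^ 2 := by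
    have := hy0 k
    positivity
  have hW0 : 0 < W := by
    by_contra h
    rw [not_lt] at h
    have := mul_nonpos_of_nonneg_of_nonpos hyk.le h
    linarith
  have hL : ∀ l, y.1 l ^ 2 ≤ 10786 / 10000 * y.1 k ^ 2 := by
    intro l
    have h1 := hl1 l
    have h2 := hpu l
    have h3 := hpl k
    by_contra hcon
    rw [not_le] at hcon
    have h4 := mul_lt_mul_of_pos_right hcon hW0
    linarith
  -- compatibility of `x` and `y`
  obtain ⟨z, hz, h1, h2⟩ := exists_aligned μ hinv x hy Finset.univ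
  have hz0 : ∀ l, z.1 l ≠ 0 := by
    intro l h4
    apply hy0 l
    have h5 := h1 l
    rw [h4] at h5
    exact pow_eq_zero_iff two_ne_zero |>.1 (by linarith)
  have hne : x ≠ z := fun h => hz0 i (by rw [← h]; exact hi)
  have h3 := inner_le hr0 μ hx hz hne
  rw [sum_ijk hij hik hjk, hi, zero_mul, zero_add] at h3
  have h4 : ∀ l, x.1 l * z.1 l = |x.1 l| * |z.1 l| := by
    intro l
    rw [← abs_mul, abs_of_nonneg (h2 l (Finset.mem_univ l))]
  rw [h4, h4] at h3
  have ha : |x.1 j| ≤ 7072 / 10000 := by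
    by_contra hcon
    rw [not_le] at hcon
    have h5 : (7072 / 10000 : ℝ) ^ 2 < |x.1 j| ^ 2 :=
      pow_lt_pow_left₀ hcon (by norm_num) two_ne_zero
    rw [sq_abs] at h5
    norm_num at h5
    linarith
  have hzs : z.1 j ^ 2 + z.1 k ^ 2 + z.1 i ^ 2 = 1 := by
    have h5 := (sum_ijk hij hik hjk (fun l => z.1 l ^ 2)).symm.trans (sum_sq_eq_one z)
    have h5' : z.1 i ^ 2 + z.1 j ^ 2 + z.1 k ^ 2 = 1 := h5
    linarith
  have h6 := numF (a := |x.1 j|) (b := |x.1 k|) (p := |z.1 j|) (q := |z.1 k|) (t := |z.1 i|)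
    (coord_abs hr0 hc μ hinv hx j hxj) ha (abs_nonneg _)
    (by rw [sq_abs, sq_abs]; exact hxs) (coord_abs hr0 hc μ hinv hz j (hz0 j)) (abs_nonneg _)
    (by rw [sq_abs, sq_abs, sq_abs]; exact hzs)
    (by rw [sq_abs, sq_abs, h1, h1]; exact hL j) (by rw [sq_abs, sq_abs, h1, h1]; exact hL i)
  linarith

end Pool.Agent.H70.AV45
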