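import Pool.Agent.H70.AV.Flip

/-!
# Measures on the sphere which are invariant under all changes of signs
-/

namespace Pool.Agent.H70.AV

open Pool.Agent.H73.Avr Pool.Agent.H71.AV

theorem ri_eq_of_const {n : ℕ} {r : ℝ} (μ : AVR (geo n) r) {f : Sph n → ℝ} {c : ℝ}
    (h : ∀ x ∈ μ.w.support, f x = c) : ri f μ.w = c := by
  have h1 : ∑ x ∈ μ.w.support, μ.w x = 1 := μ.total
  show ∑ x ∈ μ.w.support, μ.w x * f x = c
  have h2 : ∑ x ∈ μ.w.support, μ.w x * f x = ∑ x ∈ μ.w.support, μ.w x * c :=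
    Finset.sum_congr rfl fun x hx => by rw [h x hx]
  rw [h2, ← Finset.sum_mul, h1, one_mul]

/-- For `π / 3 < r` a measure on the two-sphere which is invariant under all changes of signs has
`∫ x₀² x₁² x₂²` different from `1 / 64`. -/
theorem key8 {r : ℝ} (hr : Real.pi / 3 < r) (μ : AVR (geo 2) r)
    (hinv : ∀ j x, μ.w (flip j x) = μ.w x) :
    ri (fun x => x.1 0 ^ 2 * x.1 1 ^ 2 * x.1 2 ^ 2) μ.w ≠ 1 / 64 := by
  have hpi : 0 ≤ Real.pi / 3 := by positivity
  by_cases h : ∃ x ∈ μ.w.support, ∀ i, x.1 i ≠ 0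
  · obtain ⟨x, hx, hx0⟩ := h
    have hq : ∀ j, 1 / 4 < x.1 j ^ 2 := by
      intro j
      have hj : flip j x ∈ μ.w.support := by
        rw [Finsupp.mem_support_iff] at hx ⊢
        rw [hinv]
        exact hx
      have h1 := inner_lt_cos hpi hr μ hx hj (Ne.symm (flip_ne (hx0 j)))
      rw [inner_flip, Real.cos_pi_div_three] at h1
      linarith
    have hc : ∀ y ∈ μ.w.support, (fun x : Sph 2 => x.1 0 ^ 2 * x.1 1 ^ 2 * x.1 2 ^ 2) y =
        x.1 0 ^ 2 * x.1 1 ^ 2 * x.1 2 ^ 2 := by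
      intro y hy
      obtain ⟨z, hz, h1, h2⟩ := exists_aligned μ hinv x hy Finset.univ
      have h3 : z = x := by
        by_contra hne
        have h4 := inner_lt_cos hpi hr μ hx hz (Ne.symm hne)
        rw [inner_eq_sum, Real.cos_pi_div_three] at h4
        have h5 : ∀ i, z.1 i ^ 2 / 2 ≤ x.1 i * z.1 i := by
          intro i
          rw [← pow_le_pow_iff_left₀ (by positivity) (h2 i (Finset.mem_univ i)) two_ne_zero]
          have h8 : z.1 i ^ 2 ≤ 1 :=
            (Finset.single_le_sum (f := fun i => z.1 i ^ 2) (fun i _ => sq_nonneg _)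
              (Finset.mem_univ i)).trans (le_of_eq (sum_sq_eq_one z))
          have h9 := hq i
          have h10 : 0 ≤ z.1 i ^ 2 := sq_nonneg _
          have h11 : 0 ≤ z.1 i ^ 2 * (1 - z.1 i ^ 2) := mul_nonneg h10 (by linarith)
          have h12 : 0 ≤ z.1 i ^ 2 * (x.1 i ^ 2 - 1 / 4) := mul_nonneg h10 (by linarith)
          nlinarith
        have h7 : ∑ i, z.1 i ^ 2 / 2 ≤ ∑ i, x.1 i * z.1 i := Finset.sum_le_sum fun i _ => h5 i
        rw [← Finset.sum_div, sum_sq_eq_one z] at h7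
        linarith
      show y.1 0 ^ 2 * y.1 1 ^ 2 * y.1 2 ^ 2 = _
      rw [← h1, ← h1, ← h1, h3]
    rw [ri_eq_of_const μ hc]
    have h0 := hq 0
    have h1 := hq 1
    have h2 := hq 2
    have h3 : 1 / 16 < x.1 0 ^ 2 * x.1 1 ^ 2 := by nlinarith
    have h4 : 1 / 64 < x.1 0 ^ 2 * x.1 1 ^ 2 * x.1 2 ^ 2 := by nlinarith
    exact ne_of_gt h4
  · have hc : ∀ y ∈ μ.w.support, (fun x : Sph 2 => x.1 0 ^ 2 * x.1 1 ^ 2 * x.1 2 ^ 2) y = 0 := by
      intro y hy
      show y.1 0 ^ 2 * y.1 1 ^ 2 * y.1 2 ^ 2 = 0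
      have h1 : ∃ i, y.1 i = 0 := by
        by_contra h2
        exact h ⟨y, hy, fun i hi => h2 ⟨i, hi⟩⟩
      obtain ⟨i, hi⟩ := h1
      fin_cases i
      · have hi' : y.1 0 = 0 := hi
        rw [hi']; ring
      · have hi' : y.1 1 = 0 := hi
        rw [hi']; ring
      · have hi' : y.1 2 = 0 := hi
        rw [hi']; ring
    rw [ri_eq_of_const μ hc]
    norm_num

/-- the uniform measure on a finite set of spread at least `r` -/
noncomputable def unif {n : ℕ} {r : ℝ} (S : Finset (Sph n)) (hS : S.Nonempty)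
    (h : ∀ x ∈ S, ∀ y ∈ S, x ≠ y → r ≤ geo n x y) : AVR (geo n) r where
  w := Finsupp.indicator S (fun _ _ => 1 / (S.card : ℝ))
  nonneg x := by
    classical
    rw [Finsupp.indicator_apply]
    split_ifs
    · positivity
    · exact le_refl _
  total := by
    classical
    rw [Finsupp.sum_indicator_index _ (fun _ _ => rfl), Finset.sum_const, nsmul_eq_mul]
    exact mul_one_div_cancel (Nat.cast_ne_zero.2 hS.card_ne_zero)
  spread x hx y hy hxy :=
    h x (Finsupp.support_indicator_subset _ _ hx) y (Finsupp.support_indicator_subset _ _ hy) hxy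

theorem unif_support {n : ℕ} {r : ℝ} {S : Finset (Sph n)} {hS : S.Nonempty}
    {h : ∀ x ∈ S, ∀ y ∈ S, x ≠ y → r ≤ geo n x y} {x : Sph n}
    (hx : x ∈ (unif S hS h).w.support) : x ∈ S := Finsupp.support_indicator_subset _ _ hx

theorem unif_w_eq {n : ℕ} {r : ℝ} {S : Finset (Sph n)} {hS : S.Nonempty}
    {h : ∀ x ∈ S, ∀ y ∈ S, x ≠ y → r ≤ geo n x y} {x y : Sph n} (hxy : x ∈ S ↔ y ∈ S) :
    (unif S hS h).w x = (unif S hS h).w y := by
  classical
  show Finsupp.indicator S (fun _ _ => 1 / (S.card : ℝ)) x =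
    Finsupp.indicator S (fun _ _ => 1 / (S.card : ℝ)) y
  rw [Finsupp.indicator_apply, Finsupp.indicator_apply]
  by_cases hx : x ∈ S
  · rw [dif_pos hx, dif_pos (hxy.1 hx)]
  · rw [dif_neg hx, dif_neg (fun hy => hx (hxy.2 hy))]

theorem finite_orb {n : ℕ} (a : Fin (n + 1) → ℝ) :
    {x : Sph n | ∀ i, x.1 i ^ 2 = a i}.Finite := by
  refine Set.Finite.of_finite_image (f := fun x : Sph n => fun i : Fin (n + 1) =>
    decide (0 ≤ x.1 i)) (Set.toFinite _) ?_
  intro x hx y hy hxy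
  apply Subtype.ext
  ext i
  have h1 : x.1 i ^ 2 = y.1 i ^ 2 := (hx i).trans (hy i).symm
  have h2 := congrFun hxy i
  rcases sq_eq_sq_iff_eq_or_eq_neg.1 h1 with h3 | h3
  · exact h3
  · have h4 : 0 ≤ x.1 i ↔ 0 ≤ y.1 i := by
      have h5 : decide (0 ≤ x.1 i) = decide (0 ≤ y.1 i) := h2
      exact decide_eq_decide.1 h5
    rcases le_or_gt 0 (x.1 i) with h5 | h5
    · have h6 := h4.1 h5
      linarith
    · have h6 : ¬ 0 ≤ y.1 i := fun h => absurd (h4.2 h) (not_le.2 h5)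
      rw [not_le] at h6
      linarith

theorem le_geo {n : ℕ} {r : ℝ} (h0 : 0 ≤ r) (h1 : r ≤ Real.pi) {x y : Sph n}
    (h : inner ℝ x.1 y.1 ≤ Real.cos r) : r ≤ geo n x y := by
  unfold geo InnerProductGeometry.angle
  rw [mem_sphere_zero_iff_norm.1 x.2, mem_sphere_zero_iff_norm.1 y.2, mul_one, div_one]
  calc r = Real.arccos (Real.cos r) := (Real.arccos_cos h0 h1).symm
    _ ≤ _ := Real.arccos_le_arccos h

theorem inner_orb {n : ℕ} {a : Fin (n + 1) → ℝ} {x y : Sph n} (hx : ∀ i, x.1 i ^ 2 = a i)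
    (hy : ∀ i, y.1 i ^ 2 = a i) {j : Fin (n + 1)} (hj : x.1 j ≠ y.1 j) :
    inner ℝ x.1 y.1 ≤ 1 - 2 * a j := by
  have h0 := sum_sq_eq_one x
  rw [← Finset.sum_erase_add _ _ (Finset.mem_univ j)] at h0
  rw [inner_eq_sum, ← Finset.sum_erase_add _ _ (Finset.mem_univ j)]
  have h1 : ∑ i ∈ Finset.univ.erase j, x.1 i * y.1 i ≤ ∑ i ∈ Finset.univ.erase j, x.1 i ^ 2 := by
    refine Finset.sum_le_sum fun i _ => ?_
    have h2 := hx i
    have h3 := hy i
    nlinarith [sq_nonneg (x.1 i - y.1 i)]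
  have h2 : x.1 j * y.1 j = -a j := by
    rcases sq_eq_sq_iff_eq_or_eq_neg.1 ((hx j).trans (hy j).symm) with h3 | h3
    · exact absurd h3 hj
    · rw [h3, ← hy j]; ring
  rw [h2]
  rw [hx j] at h0
  linarith

/-- the uniform measure on an orbit of the group of all sign changes -/
theorem exists_orb {n : ℕ} {r : ℝ} (h0 : 0 ≤ r) (h1 : r ≤ Real.pi) (a : Fin (n + 1) → ℝ)
    (ha : ∀ i, 0 ≤ a i) (hs : ∑ i, a i = 1) (hr : ∀ i, a i ≠ 0 → 1 - 2 * a i ≤ Real.cos r) :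
    ∃ μ : AVR (geo n) r, (∀ j x, μ.w (flip j x) = μ.w x) ∧
      ∀ (f : Sph n → ℝ) (c : ℝ), (∀ x : Sph n, (∀ i, x.1 i ^ 2 = a i) → f x = c) →
        ri f μ.w = c := by
  have hmem : ∀ x : Sph n, x ∈ (finite_orb a).toFinset ↔ ∀ i, x.1 i ^ 2 = a i := fun x => by
    rw [Set.Finite.mem_toFinset]
    rfl
  have hne : ((finite_orb a).toFinset).Nonempty := by
    refine ⟨⟨WithLp.toLp 2 (fun i => √(a i)), ?_⟩, ?_⟩
    · rw [mem_sphere_zero_iff_norm, EuclideanSpace.norm_eq, ← Real.sqrt_one]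
      congr 1
      rw [← hs]
      refine Finset.sum_congr rfl fun i _ => ?_
      show ‖√(a i)‖ ^ 2 = a i
      rw [Real.norm_eq_abs, sq_abs, Real.sq_sqrt (ha i)]
    · rw [hmem]
      intro i
      exact Real.sq_sqrt (ha i)
  refine ⟨unif (finite_orb a).toFinset hne ?_, ?_, ?_⟩
  · intro x hx y hy hxy
    rw [hmem] at hx hy
    obtain ⟨j, hj⟩ : ∃ j, x.1 j ≠ y.1 j := by
      by_contra h
      refine hxy (Subtype.ext ?_)
      ext j
      by_contra hj
      exact h ⟨j, hj⟩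
    refine le_geo h0 h1 ((inner_orb hx hy hj).trans (hr j ?_))
    intro haj
    have h2 := hx j
    have h3 := hy j
    rw [haj, sq_eq_zero_iff] at h2 h3
    exact hj (h2.trans h3.symm)
  · intro j x
    apply unif_w_eq
    rw [hmem, hmem]
    have h2 : ∀ i, (flip j x).1 i ^ 2 = x.1 i ^ 2 := by
      intro i
      rw [flip_apply]
      split_ifs
      · ring
      · rfl
    simp only [h2]
  · intro f c hc
    apply ri_eq_of_const
    intro x hx
    exact hc x ((hmem x).1 (unif_support hx))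

/-- the vertices of the cube -/
theorem exists_cube {r : ℝ} (h0 : 0 ≤ r) (h : r ≤ Real.arccos (1 / 3)) :
    ∃ μ : AVR (geo 2) r, (∀ j x, μ.w (flip j x) = μ.w x) ∧
      ri (fun x => x.1 0 ^ 2 * x.1 1 ^ 2 * x.1 2 ^ 2) μ.w = 1 / 27 := by
  have h1 : r ≤ Real.pi := h.trans (Real.arccos_le_pi _)
  have h2 : 1 / 3 ≤ Real.cos r := by
    rw [← Real.cos_arccos (x := 1 / 3) (by norm_num) (by norm_num)]
    exact Real.cos_le_cos_of_nonneg_of_le_pi h0 (Real.arccos_le_pi _) h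
  obtain ⟨μ, hμ, hf⟩ := exists_orb (n := 2) h0 h1 (fun _ => 1 / 3) (fun _ => by norm_num)
    (by rw [Fin.sum_univ_three]; norm_num) (fun _ _ => by linarith)
  refine ⟨μ, hμ, hf _ _ fun x hx => ?_⟩
  show x.1 0 ^ 2 * x.1 1 ^ 2 * x.1 2 ^ 2 = 1 / 27
  rw [hx, hx, hx]
  norm_num

/-- two antipodal points -/
theorem exists_pair {r : ℝ} (h0 : 0 ≤ r) (h : r ≤ Real.pi) :
    ∃ μ : AVR (geo 2) r, (∀ j x, μ.w (flip j x) = μ.w x) ∧
      ri (fun x => x.1 0 ^ 2 * x.1 1 ^ 2 * x.1 2 ^ 2) μ.w = 0 := by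
  obtain ⟨μ, hμ, hf⟩ := exists_orb (n := 2) h0 h (fun i => if i = 0 then 1 else 0)
    (fun i => by split_ifs <;> norm_num) (by rw [Fin.sum_univ_three]; simp)
    (fun i hi => by
      have h2 : i = 0 := by
        by_contra h3
        exact hi (if_neg h3)
      rw [if_pos h2]
      have := Real.neg_one_le_cos r
      linarith)
  refine ⟨μ, hμ, hf _ _ fun x hx => ?_⟩
  show x.1 0 ^ 2 * x.1 1 ^ 2 * x.1 2 ^ 2 = 0
  have h3 : x.1 1 ^ 2 = 0 := (hx 1).trans (if_neg (by decide))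
  rw [h3]
  ring

end Pool.Agent.H70.AV
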