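import Pool.Agent.H70.AV.Act

/-!
# Measures invariant under an orthogonal family of sign vectors
-/

namespace Pool.Agent.H70.AV

open Pool.Agent.H73.Avr Pool.Agent.H71.AV

/-- Let `S` be a finite set of sign vectors with pairwise orthogonal columns, each of sum zero. A
measure invariant under the sign vectors of `S` and their negatives has `∫ ∏ xᵢ²` different from
`(2 / |S|)^(2 (n + 1))` as soon as `cos r < 2 / |S|`. -/
theorem keyS {n : ℕ} {r : ℝ} (S : Finset (Fin (n + 1) → ℤˣ)) (hS1 : (1 : Fin (n + 1) → ℤˣ) ∈ S)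
    (hSn : (-1 : Fin (n + 1) → ℤˣ) ∉ S) (hQ : 2 < S.card)
    (hcol : ∀ i, ∑ c ∈ S, sr c i = 0) (hort : ∀ i j, i ≠ j → ∑ c ∈ S, sr c i * sr c j = 0)
    (hr0 : 0 ≤ r) (hr : Real.cos r < 2 / (S.card : ℝ)) (μ : AVR (geo n) r)
    (hinv : ∀ c ∈ S, ∀ x, μ.w (act c x) = μ.w x)
    (hinv' : ∀ c ∈ S, ∀ x, μ.w (act (-c) x) = μ.w x) :
    ri (fun x => ∏ i, x.1 i ^ 2) μ.w ≠ ((2 / (S.card : ℝ)) ^ 2) ^ (n + 1) := by
  set Q : ℝ := (S.card : ℝ) with hQdef
  have hQ2 : (2 : ℝ) < Q := by rw [hQdef]; exact_mod_cast hQ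
  have hQ0 : 0 < Q := by linarith
  have hQi : 0 < 2 / Q := by positivity
  by_cases h : ∃ x ∈ μ.w.support, ∀ i, x.1 i ≠ 0
  · obtain ⟨x, hx, hx0⟩ := h
    -- inner products with the translates of `x`
    have hq1 : ∀ c ∈ S, c ≠ 1 → ∑ i, sr c i * (x.1 i * x.1 i) ≤ Real.cos r := by
      intro c hc hc1
      have h1 := inner_le_cos hr0 μ (act_mem μ (hinv c hc) hx) hx (act_ne hc1 hx0)
      rw [inner_act] at h1
      exact h1
    have hq2 : ∀ c ∈ S, -Real.cos r ≤ ∑ i, sr c i * (x.1 i * x.1 i) := by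
      intro c hc
      have hc1 : -c ≠ 1 := by
        intro h1
        apply hSn
        rw [← h1, neg_neg]
        exact hc
      have h1 := inner_le_cos hr0 μ (act_mem μ (hinv' c hc) hx) hx (act_ne hc1 hx0)
      rw [inner_act] at h1
      have h2 : ∑ i, sr (-c) i * (x.1 i * x.1 i) = -∑ i, sr c i * (x.1 i * x.1 i) := by
        rw [← Finset.sum_neg_distrib]
        refine Finset.sum_congr rfl fun i _ => ?_
        rw [sr_neg]
        ring
      rw [h2] at h1
      linarith
    have hsum : ∑ i, x.1 i * x.1 i = 1 := by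
      refine Eq.trans ?_ (sum_sq_eq_one x)
      exact Finset.sum_congr rfl fun i _ => (sq _).symm
    -- lower bound for the squares of the coordinates
    have ha : ∀ i, (2 / Q) ^ 2 < x.1 i ^ 2 := by
      intro i
      have h1 : ∑ c ∈ S, (1 + sr c i) * ∑ j, sr c j * (x.1 j * x.1 j) = Q * (x.1 i * x.1 i) := by
        have h2 : ∀ c ∈ S, (1 + sr c i) * ∑ j, sr c j * (x.1 j * x.1 j) =
            ∑ j, (sr c j + sr c i * sr c j) * (x.1 j * x.1 j) := by
          intro c _
          rw [Finset.mul_sum]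
          refine Finset.sum_congr rfl fun j _ => ?_
          ring
        rw [Finset.sum_congr rfl h2, Finset.sum_comm, Finset.sum_eq_single i]
        · rw [← Finset.sum_mul, Finset.sum_add_distrib, hcol]
          have h3 : ∑ c ∈ S, sr c i * sr c i = Q := by
            rw [Finset.sum_congr rfl fun c _ => sr_sq c i, Finset.sum_const, nsmul_eq_mul, mul_one]
          rw [h3, zero_add]
        · intro j _ hj
          rw [← Finset.sum_mul, Finset.sum_add_distrib, hcol, hort i j (Ne.symm hj)]
          ring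
        · intro h3
          exact absurd (Finset.mem_univ _) h3
      have h4 : ∑ c ∈ S, (1 + sr c i) = Q := by
        rw [Finset.sum_add_distrib, hcol, Finset.sum_const, nsmul_eq_mul, mul_one, add_zero]
      rw [← Finset.sum_erase_add _ _ hS1] at h1 h4
      have h5 : ∑ c ∈ S.erase 1, (1 + sr c i) * (-Real.cos r) ≤
          ∑ c ∈ S.erase 1, (1 + sr c i) * ∑ j, sr c j * (x.1 j * x.1 j) := by
        refine Finset.sum_le_sum fun c hc => ?_
        apply mul_le_mul_of_nonneg_left (hq2 c (Finset.mem_of_mem_erase hc))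
        rcases sr_cases c i with h6 | h6 <;> rw [h6] <;> norm_num
      rw [← Finset.sum_mul] at h5
      have h6 : (1 + sr (1 : Fin (n + 1) → ℤˣ) i) * ∑ j, sr (1 : Fin (n + 1) → ℤˣ) j *
          (x.1 j * x.1 j) = 2 := by
        simp only [sr_one, one_mul]
        rw [hsum]
        norm_num
      rw [h6] at h1
      rw [sr_one] at h4
      have h7 : ∑ c ∈ S.erase 1, (1 + sr c i) = Q - 2 := by linarith
      rw [h7] at h5
      have h8 : (Q - 2) * Real.cos r < (Q - 2) * (2 / Q) :=
        mul_lt_mul_of_pos_left hr (by linarith)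
      have h9 : (Q - 2) * (2 / Q) = 2 - 4 / Q := by field_simp; ring
      have h10 : 4 / Q < Q * (x.1 i * x.1 i) := by linarith
      have h11 : (2 / Q) ^ 2 = 4 / Q / Q := by field_simp; norm_num
      rw [h11, div_lt_iff₀ hQ0, sq]
      linarith
    -- the support is one orbit
    have hc : ∀ y ∈ μ.w.support, (fun x : Sph n => ∏ i, x.1 i ^ 2) y = ∏ i, x.1 i ^ 2 := by
      intro y hy
      show ∏ i, y.1 i ^ 2 = ∏ i, x.1 i ^ 2
      by_cases hyS : ∃ c ∈ S, act c x = y ∨ act (-c) x = y
      · obtain ⟨c, _, hc | hc⟩ := hyS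
        · rw [← hc]
          refine Finset.prod_congr rfl fun i _ => ?_
          rw [act_apply, mul_pow, sq (sr c i), sr_sq, one_mul]
        · rw [← hc]
          refine Finset.prod_congr rfl fun i _ => ?_
          rw [act_apply, mul_pow, sq (sr (-c) i), sr_sq, one_mul]
      · exfalso
        have h1 : ∀ c ∈ S, ∑ i, sr c i * (x.1 i * y.1 i) ≤ Real.cos r ∧
            -Real.cos r ≤ ∑ i, sr c i * (x.1 i * y.1 i) := by
          intro c hc
          have h2 := inner_le_cos hr0 μ (act_mem μ (hinv c hc) hx) hy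
            (fun h => hyS ⟨c, hc, Or.inl h⟩)
          have h3 := inner_le_cos hr0 μ (act_mem μ (hinv' c hc) hx) hy
            (fun h => hyS ⟨c, hc, Or.inr h⟩)
          rw [inner_act] at h2 h3
          have h4 : ∑ i, sr (-c) i * (x.1 i * y.1 i) = -∑ i, sr c i * (x.1 i * y.1 i) := by
            rw [← Finset.sum_neg_distrib]
            refine Finset.sum_congr rfl fun i _ => ?_
            rw [sr_neg]
            ring
          rw [h4] at h3
          exact ⟨h2, by linarith⟩
        have hk0 : 0 ≤ Real.cos r := by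
          have := h1 1 hS1
          linarith [this.1, this.2]
        have h2 : ∑ c ∈ S, (∑ i, sr c i * (x.1 i * y.1 i)) ^ 2 =
            Q * ∑ i, (x.1 i * y.1 i) ^ 2 := by
          have h3 : ∀ c ∈ S, (∑ i, sr c i * (x.1 i * y.1 i)) ^ 2 =
              ∑ i, ∑ j, (sr c i * sr c j) * ((x.1 i * y.1 i) * (x.1 j * y.1 j)) := by
            intro c _
            rw [sq, Finset.sum_mul_sum]
            refine Finset.sum_congr rfl fun i _ => Finset.sum_congr rfl fun j _ => ?_
            ring
          rw [Finset.sum_congr rfl h3, Finset.sum_comm, Finset.mul_sum]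
          refine Finset.sum_congr rfl fun i _ => ?_
          rw [Finset.sum_comm, Finset.sum_eq_single i]
          · rw [← Finset.sum_mul]
            have h3 : ∑ c ∈ S, sr c i * sr c i = Q := by
              rw [Finset.sum_congr rfl fun c _ => sr_sq c i, Finset.sum_const, nsmul_eq_mul,
                mul_one]
            rw [h3, sq]
          · intro j _ hj
            rw [← Finset.sum_mul, hort i j (Ne.symm hj), zero_mul]
          · intro h3
            exact absurd (Finset.mem_univ _) h3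
        have h4 : ∑ c ∈ S, (∑ i, sr c i * (x.1 i * y.1 i)) ^ 2 ≤ Q * Real.cos r ^ 2 := by
          rw [hQdef, ← nsmul_eq_mul]
          refine Finset.sum_le_card_nsmul _ _ _ fun c hc => ?_
          exact sq_le_sq' (h1 c hc).2 (h1 c hc).1
        have h5 : (2 / Q) ^ 2 ≤ ∑ i, (x.1 i * y.1 i) ^ 2 := by
          calc (2 / Q) ^ 2 = (2 / Q) ^ 2 * ∑ i, y.1 i ^ 2 := by
                have := sum_sq_eq_one y
                exact (mul_one _).symm.trans (congrArg _ this.symm)
            _ = ∑ i, (2 / Q) ^ 2 * y.1 i ^ 2 := Finset.mul_sum _ _ _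
            _ ≤ ∑ i, (x.1 i * y.1 i) ^ 2 := by
                refine Finset.sum_le_sum fun i _ => ?_
                rw [mul_pow]
                exact mul_le_mul_of_nonneg_right (ha i).le (sq_nonneg _)
        have h6 : Real.cos r ^ 2 < (2 / Q) ^ 2 := by
          apply pow_lt_pow_left₀ hr hk0 two_ne_zero
        have h7 : Q * Real.cos r ^ 2 < Q * (2 / Q) ^ 2 := mul_lt_mul_of_pos_left h6 hQ0
        have h8 : Q * (2 / Q) ^ 2 ≤ Q * ∑ i, (x.1 i * y.1 i) ^ 2 :=
          mul_le_mul_of_nonneg_left h5 hQ0.le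
        linarith
    rw [ri_eq_of_const μ hc]
    apply ne_of_gt
    calc ((2 / Q) ^ 2) ^ (n + 1) = ∏ _i : Fin (n + 1), (2 / Q) ^ 2 := by
          rw [Finset.prod_const, Finset.card_univ, Fintype.card_fin]
      _ < ∏ i, x.1 i ^ 2 :=
          Finset.prod_lt_prod_of_nonempty (fun i _ => by positivity) (fun i _ => ha i)
            Finset.univ_nonempty
  · have hc : ∀ y ∈ μ.w.support, (fun x : Sph n => ∏ i, x.1 i ^ 2) y = 0 := by
      intro y hy
      show ∏ i, y.1 i ^ 2 = 0
      have h1 : ∃ i, y.1 i = 0 := by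
        by_contra h2
        exact h ⟨y, hy, fun i hi => h2 ⟨i, hi⟩⟩
      obtain ⟨i, hi⟩ := h1
      exact Finset.prod_eq_zero (Finset.mem_univ i) (by rw [hi]; norm_num)
    rw [ri_eq_of_const μ hc]
    have : 0 < ((2 / Q) ^ 2) ^ (n + 1) := by positivity
    exact ne_of_lt this

end Pool.Agent.H70.AV
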